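import Pool.Agent.Y714.KE.Bas

set_option autoImplicit false

/-! Project KE, job RBC: counting lattices by reduced bases. -/

namespace Pool.Agent.Y405.KE

open Pool.Agent.Y714.KF (FI sp ct nm pm ext br gl ubas qf bk el sg bf)
open NumberField FractionalIdeal Module Finset ComplexConjugate MeasureTheory Filter Topology
open Pool.Agent.Y714.KE
open scoped nonZeroDivisors

section

/-- A finite set on which all fibres of a map have two elements. -/
theorem ncard_two_fib {α β : Type} (E : Set α) (hE : E.Finite) (f : α → β) (g : α → α)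
    (hg : ∀ z ∈ E, g z ∈ E ∧ f (g z) = f z ∧ g z ≠ z)
    (hf : ∀ z ∈ E, ∀ w ∈ E, f z = f w → w = z ∨ w = g z) :
    E.ncard = 2 * (f '' E).ncard := by
  classical
  obtain ⟨S, rfl⟩ := hE.exists_finset_coe
  rw [← Finset.coe_image, Set.ncard_coe_finset, Set.ncard_coe_finset]
  rw [Finset.card_eq_sum_card_fiberwise (f := f) (s := S) (t := S.image f)
    (fun z hz => by
      rw [Finset.coe_image]
      exact Set.mem_image_of_mem f hz)]
  have h2 : ∀ M ∈ S.image f, (S.filter (fun z => f z = M)).card = 2 := by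
    intro M hM
    obtain ⟨z, hz, rfl⟩ := Finset.mem_image.1 hM
    obtain ⟨h1, h3, h4⟩ := hg z (by exact_mod_cast hz)
    rw [Finset.card_eq_two]
    refine ⟨z, g z, h4.symm, ?_⟩
    ext w
    rw [Finset.mem_filter, Finset.mem_insert, Finset.mem_singleton]
    constructor
    · rintro ⟨hw, hw2⟩
      exact hf z (by exact_mod_cast hz) w (by exact_mod_cast hw) hw2.symm
    · rintro (rfl | rfl)
      · exact ⟨hz, rfl⟩
      · exact ⟨by exact_mod_cast h1, h3⟩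
  rw [Finset.sum_congr rfl h2, Finset.sum_const, smul_eq_mul, mul_comm]

/-- Integral points in a dilated bounded set. -/
theorem finite_points {κ : Type} [Fintype κ] (D : Set (κ → ℝ)) (hD : Bornology.IsBounded D)
    (Y : κ → ℝ) (hY : ∀ i, 0 < Y i) : {z : κ → ℤ | (fun i => (z i : ℝ) / Y i) ∈ D}.Finite := by
  classical
  obtain ⟨R, hR⟩ := hD.exists_norm_le
  choose N hN using fun i => exists_nat_ge (R * Y i)
  refine (Set.Finite.pi' (t := fun i : κ => Set.Icc (-(N i : ℤ)) (N i))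
    (fun _ => Set.finite_Icc _ _)).subset ?_
  intro z hz i
  have h1 := hR _ hz
  have h2 : ‖(z i : ℝ) / Y i‖ ≤ R := (norm_le_pi_norm (fun i => (z i : ℝ) / Y i) i).trans h1
  rw [Real.norm_eq_abs, abs_div, abs_of_pos (hY i), div_le_iff₀ (hY i)] at h2
  have h3 := abs_le.1 (h2.trans (hN i))
  constructor
  · exact_mod_cast h3.1
  · exact_mod_cast h3.2

variable {s : Type} [Fintype s] [DecidableEq s] {K : s → Type} [∀ i, Field (K i)]
  [∀ i, NumberField (K i)]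

theorem br_smul (c d : ℂ) (u v : ℂ × ℂ) : br (c • u) (d • v) = c * d * br u v := by
  unfold br
  simp only [Prod.smul_fst, Prod.smul_snd, smul_eq_mul]
  ring

theorem br_scl (b : Bs K) (y : s → ℝ) (z : Ix K ⊕ Ix K → ℤ) :
    (∀ e f : Em K, e ≠ f → br (rw2 b (scl y z) e) (rw2 b (scl y z) f) ≠ 0) ↔ ND (pr b z) := by
  rw [rw2_scl]
  unfold ND
  refine forall_congr' fun e => forall_congr' fun f => forall_congr' fun _ => ?_
  rw [br_smul, mul_ne_zero_iff, mul_ne_zero_iff]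
  have h1 : ∀ e : Em K, ((Real.exp (-(y e.1)) : ℝ) : ℂ) ≠ 0 := fun e => by
    exact_mod_cast (Real.exp_pos _).ne'
  exact ⟨fun h => h.2, fun h => ⟨⟨h1 e, h1 f⟩, h⟩⟩

theorem tt_pos (y : s → ℝ) : 0 < tt (K := K) y := Real.exp_pos _

theorem mem_Dc_iff (hodd : Odd (dg K)) (hn : 2 ≤ dg K) (b : Bs K) (κ : Ux K → ℝ) (i₀ : s) (δ : ℝ)
    (y : s → ℝ) (z : Ix K ⊕ Ix K → ℤ) :
    scl y z ∈ Dc b κ i₀ δ ↔ δ ^ 2 ≤ QY y (pr b z).1 ∧ RB y (pr b z) ∧ ND (pr b z) ∧
      pm (vc (pr b z)) ≤ tt (K := K) y ∧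
      (∀ j, κ j ≤ cc (vc (pr b z)) j ∧ cc (vc (pr b z)) j ≤ κ j + 1) ∧
      ∀ i, i ≠ i₀ → y i ≤ ui (vc (pr b z)) i ∧ ui (vc (pr b z)) i ≤ y i + 1 := by
  have ht := tt_pos (K := K) y
  have e1 := QY_pr1 b y z
  have e2 := QY_pr2 b y z
  have e3 := BY_pr b y z
  have hb := br_scl b y z
  constructor
  · rintro ⟨h1, h2, h3, h4, h5, h6, h7, h8⟩
    have hND := hb.1 h5
    have hp := hND.pm_pos hn
    rw [← e1, ← e2] at h2
    rw [← e3] at h3
    rw [← e3, ← e1] at h4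
    rw [← e1] at h1
    rw [pm_rw2_scl b y z hp, div_le_one ht] at h6
    rw [cc_rw2_scl hodd b y z hp] at h7
    refine ⟨h1, ⟨h2, h3, h4⟩, hND, h6, h7, fun i hi => ?_⟩
    have h9 := h8 i hi
    rw [ui_rw2_scl hodd b y z hp] at h9
    constructor <;> linarith [h9.1, h9.2]
  · rintro ⟨h1, ⟨h2, h3, h4⟩, h5, h6, h7, h8⟩
    have hp := h5.pm_pos hn
    refine ⟨by rw [← e1]; exact h1, by rw [← e1, ← e2]; exact h2, by rw [← e3]; exact h3,
      by rw [← e3, ← e1]; exact h4, hb.2 h5, ?_, ?_, fun i hi => ?_⟩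
    · rw [pm_rw2_scl b y z hp, div_le_one ht]
      exact h6
    · rw [cc_rw2_scl hodd b y z hp]
      exact h7
    · have h9 := h8 i hi
      rw [ui_rw2_scl hodd b y z hp]
      constructor <;> linarith [h9.1, h9.2]

theorem mem_Dm_iff (hodd : Odd (dg K)) (hn : 2 ≤ dg K) (b : Bs K) (κ : Ux K → ℝ) (i₀ : s) (δ : ℝ)
    (y : s → ℝ) (z : Ix K ⊕ Ix K → ℤ) :
    scl y z ∈ Dm b κ i₀ δ ↔ δ ^ 2 < QY y (pr b z).1 ∧ SRB y (pr b z) ∧ ND (pr b z) ∧
      pm (vc (pr b z)) < tt (K := K) y ∧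
      (∀ j, κ j < cc (vc (pr b z)) j ∧ cc (vc (pr b z)) j < κ j + 1) ∧
      ∀ i, i ≠ i₀ → y i < ui (vc (pr b z)) i ∧ ui (vc (pr b z)) i < y i + 1 := by
  have ht := tt_pos (K := K) y
  have e1 := QY_pr1 b y z
  have e2 := QY_pr2 b y z
  have e3 := BY_pr b y z
  have hb := br_scl b y z
  constructor
  · rintro ⟨h1, h2, h3, h4, h5, h6, h7, h8⟩
    have hND := hb.1 h5
    have hp := hND.pm_pos hn
    rw [← e1, ← e2] at h2
    rw [← e3] at h3
    rw [← e3, ← e1] at h4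
    rw [← e1] at h1
    rw [pm_rw2_scl b y z hp, div_lt_one ht] at h6
    rw [cc_rw2_scl hodd b y z hp] at h7
    refine ⟨h1, ⟨h2, h3, h4⟩, hND, h6, h7, fun i hi => ?_⟩
    have h9 := h8 i hi
    rw [ui_rw2_scl hodd b y z hp] at h9
    constructor <;> linarith [h9.1, h9.2]
  · rintro ⟨h1, ⟨h2, h3, h4⟩, h5, h6, h7, h8⟩
    have hp := h5.pm_pos hn
    refine ⟨by rw [← e1]; exact h1, by rw [← e1, ← e2]; exact h2, by rw [← e3]; exact h3,
      by rw [← e3, ← e1]; exact h4, hb.2 h5, ?_, ?_, fun i hi => ?_⟩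
    · rw [pm_rw2_scl b y z hp, div_lt_one ht]
      exact h6
    · rw [cc_rw2_scl hodd b y z hp]
      exact h7
    · have h9 := h8 i hi
      rw [ui_rw2_scl hodd b y z hp]
      constructor <;> linarith [h9.1, h9.2]

theorem LT_neg (P : Al K × Al K) : LT (-P.1, -P.2) = LT P := by
  have h := LT_glz (-1) 0 0 (-1) (by norm_num) P
  rw [← h]
  congr 1
  simp [glz]

theorem QY_neg (y : s → ℝ) (x : Al K) : QY y (-x) = QY y x := by
  unfold QY qf
  simp

theorem BY_neg (y : s → ℝ) (x x' : Al K) : BY y (-x) (-x') = BY y x x' := by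
  unfold BY bk
  simp

theorem IN_fst {P : Al K × Al K} (h : IN P) : P.1 ≠ 0 := by
  intro h0
  have := (h 1 0 (by rw [h0]; simp)).1
  exact one_ne_zero this

variable (K)

/-- Counting lattices by reduced bases. -/
theorem rbc (h1 : S_T1 K) (h2 : S_OPB K) : S_RBC K := by
  classical
  intro hodd hn3 I b hb κ i₀ δ hδ y Pr
  have hn2 : 2 ≤ dg K := by omega
  obtain ⟨C, _, hCR⟩ := h1 hodd hn3 κ i₀ I
  have hSLfin := (hCR y).1.1
  have hbd : Bornology.IsBounded (Dc b κ i₀ δ) := (h2 hodd hn3 b κ i₀ δ hδ).2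
  have hDcfin : {z : Ix K ⊕ Ix K → ℤ | scl y z ∈ Dc b κ i₀ δ}.Finite :=
    finite_points (Dc b κ i₀ δ) hbd (fun k => Real.exp (y (cm k))) (fun k => Real.exp_pos _)
  -- the closed region contains the open one
  have hDmDc : ∀ z : Ix K ⊕ Ix K → ℤ, scl y z ∈ Dm b κ i₀ δ → scl y z ∈ Dc b κ i₀ δ := by
    intro z hz
    rw [mem_Dm_iff hodd hn2] at hz
    rw [mem_Dc_iff hodd hn2]
    obtain ⟨k1, ⟨k2, k3, k4⟩, k5, k6, k7, k8⟩ := hz
    exact ⟨k1.le, ⟨k2.le, k3.le, k4.le⟩, k5, k6.le, fun j => ⟨(k7 j).1.le, (k7 j).2.le⟩,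
      fun i hi => ⟨(k8 i hi).1.le, (k8 i hi).2.le⟩⟩
  set A : Set (Submodule ℤ (Al K)) := {M ∈ SY κ i₀ (cf I) y | Pr M} with hA
  set E : Set (Ix K ⊕ Ix K → ℤ) := {z | scl y z ∈ Dm b κ i₀ δ ∧ Pr (LT (pr b z))} with hE
  set Cu : Set (Submodule ℤ (Al K)) := {M ∈ SY κ i₀ (cf I) y | ∃ x ∈ M, x ≠ 0 ∧ QY y x ≤ δ ^ 2}
    with hCu
  set Bd : Set (Ix K ⊕ Ix K → ℤ) := {z | scl y z ∈ Dc b κ i₀ δ \ Dm b κ i₀ δ} with hBd
  have hAfin : A.Finite := hSLfin.subset fun M hM => hM.1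
  have hCufin : Cu.Finite := hSLfin.subset fun M hM => hM.1
  have hEfin : E.Finite := hDcfin.subset fun z hz => hDmDc z hz.1
  have hBdfin : Bd.Finite := hDcfin.subset fun z hz => hz.1
  have hct : ∀ (z : Ix K ⊕ Ix K → ℤ) (i : s), cn (pr b z) i ≤ cf I i := fun z => cn_pr_le hb z
  obtain ⟨f, hf⟩ : ∃ f : (Ix K ⊕ Ix K → ℤ) → Submodule ℤ (Al K), f = fun z => LT (pr b z) :=
    ⟨_, rfl⟩
  -- the image of `E` is in `A`
  have hsub1 : f '' E ⊆ A := by
    rintro _ ⟨z, hz, rfl⟩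
    obtain ⟨hz1, hz2⟩ := hz
    rw [mem_Dm_iff hodd hn2] at hz1
    obtain ⟨k1, k2, k5, k6, k7, k8⟩ := hz1
    rw [hf]
    exact ⟨⟨pr b z, rfl, hct z, k5, fun j => ⟨(k7 j).1.le, (k7 j).2⟩,
      fun i hi => ⟨(k8 i hi).1.le, (k8 i hi).2⟩, k6.le⟩, hz2⟩
  -- the covering
  have hsub2 : A ⊆ f '' E ∪ Cu ∪ f '' Bd := by
    rintro M ⟨hM1, hM2⟩
    by_cases hMC : M ∈ Cu
    · exact Or.inl (Or.inr hMC)
    obtain ⟨P, hMP, hPI, hPND, hPNZ, hPui, hPpm⟩ := hM1
    obtain ⟨Q, hQL, hQRB, hQND⟩ := exists_rbY y hPND hn2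
    obtain ⟨_, i2, i3, i4, _⟩ := LT_inv hodd hn2 hPND hQL.symm
    have hQI : ∀ i, cn Q i ≤ (I i : FI (K i)) := by
      rw [cn_congr hQL]
      exact hPI
    obtain ⟨z, hprz⟩ := exists_pr hb hQI
    have hqf : δ ^ 2 < QY y Q.1 := by
      by_contra hcon
      refine hMC ⟨⟨P, hMP, hPI, hPND, hPNZ, hPui, hPpm⟩, Q.1, ?_, IN_fst (hQND.ind hn2),
        not_lt.1 hcon⟩
      rw [hMP, ← hQL]
      exact fst_mem_LT Q
    have hfz : f z = M := by
      rw [hf, hMP, ← hQL]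
      show LT (pr b z) = LT Q
      rw [hprz]
    have hDc : scl y z ∈ Dc b κ i₀ δ := by
      rw [mem_Dc_iff hodd hn2, hprz]
      refine ⟨hqf.le, hQRB, hQND, i2 ▸ hPpm, fun j => ?_, fun i hi => ?_⟩
      · rw [i3]
        exact ⟨(hPNZ j).1, (hPNZ j).2.le⟩
      · rw [i4]
        exact ⟨(hPui i hi).1, (hPui i hi).2.le⟩
    by_cases hDm : scl y z ∈ Dm b κ i₀ δ
    · refine Or.inl (Or.inl ⟨z, ⟨hDm, ?_⟩, hfz⟩)
      have : LT (pr b z) = M := by rw [← hfz, hf]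
      rw [this]
      exact hM2
    · exact Or.inr ⟨z, ⟨hDc, hDm⟩, hfz⟩
  -- the fibres
  have hEcard : E.ncard = 2 * (f '' E).ncard := by
    refine ncard_two_fib E hEfin f (fun z => fun k => -z k) ?_ ?_
    · rintro z ⟨hz1, hz2⟩
      rw [mem_Dm_iff hodd hn2] at hz1
      obtain ⟨k1, ⟨k2, k3, k4⟩, k5, k6, k7, k8⟩ := hz1
      have hInd := k5.ind hn2
      have hL : LT (pr b (fun k => -z k)) = LT (pr b z) := by rw [pr_neg, LT_neg]
      obtain ⟨l1, l2, l3, l4, _⟩ := LT_inv hodd hn2 k5 hL.symm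
      refine ⟨⟨?_, ?_⟩, ?_, ?_⟩
      · rw [mem_Dm_iff hodd hn2]
        refine ⟨?_, ⟨?_, ?_, ?_⟩, l1, ?_, ?_, ?_⟩
        · rw [pr_neg, QY_neg]; exact k1
        · rw [pr_neg, QY_neg, QY_neg]; exact k2
        · rw [pr_neg, BY_neg]; exact k3
        · rw [pr_neg, BY_neg, QY_neg]; exact k4
        · rw [l2]; exact k6
        · rw [l3]; exact k7
        · rw [l4]; exact k8
      · rw [hL]; exact hz2
      · rw [hf]; exact hL
      · intro hcon
        have h3 : pr b (fun k => -z k) = pr b z := by rw [hcon]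
        rw [pr_neg] at h3
        have h4 : -(pr b z).1 = (pr b z).1 := congrArg Prod.fst h3
        apply IN_fst hInd
        funext i
        have h5 : -((pr b z).1 i) = (pr b z).1 i := congrFun h4 i
        have h6 : (2 : K i) * (pr b z).1 i = 0 := by linear_combination -h5
        exact (mul_eq_zero.1 h6).resolve_left two_ne_zero
    · rintro z ⟨hz1, _⟩ w ⟨hw1, _⟩ hzw
      rw [mem_Dm_iff hodd hn2] at hz1 hw1
      rw [hf] at hzw
      have hwRB : RB y (pr b w) := ⟨hw1.2.1.1.le, hw1.2.1.2.1.le, hw1.2.1.2.2.le⟩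
      rcases SRB.uniqueY hz1.2.1 hwRB (hz1.2.2.1.ind hn2) (hw1.2.2.1.ind hn2) hzw with h | h
      · left
        exact pr_inj b h
      · right
        refine pr_inj b ?_
        rw [h, pr_neg]
  -- counting
  have hfE : (f '' E).Finite := hEfin.image f
  have hle1 : (f '' E).ncard ≤ A.ncard := Set.ncard_le_ncard hsub1 hAfin
  have hle2 : A.ncard ≤ (f '' E).ncard + Cu.ncard + Bd.ncard := by
    calc A.ncard ≤ (f '' E ∪ Cu ∪ f '' Bd).ncard :=
          Set.ncard_le_ncard hsub2 ((hfE.union hCufin).union (hBdfin.image f))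
      _ ≤ (f '' E ∪ Cu).ncard + (f '' Bd).ncard := Set.ncard_union_le _ _
      _ ≤ (f '' E).ncard + Cu.ncard + (f '' Bd).ncard := by
          gcongr
          exact Set.ncard_union_le _ _
      _ ≤ (f '' E).ncard + Cu.ncard + Bd.ncard := by
          gcongr
          exact Set.ncard_image_le hBdfin
  have r1 : ((f '' E).ncard : ℝ) ≤ A.ncard := by exact_mod_cast hle1
  have r2 : (A.ncard : ℝ) ≤ (f '' E).ncard + Cu.ncard + Bd.ncard := by exact_mod_cast hle2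
  have r3 : (E.ncard : ℝ) = 2 * (f '' E).ncard := by exact_mod_cast hEcard
  rw [r3, abs_of_nonneg (by linarith)]
  linarith

end

end Pool.Agent.Y405.KE
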